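import Pool.Agent.H73.LinLat.Rep

/-!
# A finite unbounded-order Arguesian lattice that is not linear

The definitions (`IsLinear`, `HigherArguesian`, `UnboundedOrderArguesian`) are in
`Pool.Agent.H73.LinLat.Defs`.
-/

set_option autoImplicit false

universe v

open Pool.Agent.H73.LinLat

namespace Pool.Agent.Results.MP_9293a4_al.NonlinearArguesian

/-- **There is a finite unbounded-order Arguesian lattice that is not linear.**

Moreover it can be chosen so that its dual is linear: so the class of linear lattices is not
self-dual.  (The lattice is the dual of the lattice of normal subgroups of a `2`-group of order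
`2 ^ 22`; the nonlinearity holds for representing sets in every universe.) -/
theorem result : ∃ (L : Type) (_ : Lattice L), Finite L ∧ UnboundedOrderArguesian L ∧
    ¬ IsLinear.{0, v} L ∧ IsLinear.{0, 0} Lᵒᵈ :=
  ⟨(NS Gam)ᵒᵈ, inferInstance, inferInstanceAs (Finite (NS Gam)), dual_NS_arguesian Gam,
    not_linear_dual, linear_NS Gam⟩

end Pool.Agent.Results.MP_9293a4_al.NonlinearArguesian
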